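import Mathlib
import Pool.Agent.Y906.RG.Main

/-!
# The Rogers-Ramanujan continued fraction on the unit circle: general convergence
-/

set_option autoImplicit false

namespace Pool.Agent.Results.MP_1cdd17_nt.GeneralConvergence

open Pool.Agent.Y906.RG

/-- On the unit circle the Rogers-Ramanujan continued fraction converges in the general sense
(Jacobsen) exactly at the roots of unity. At every other point of the circle it diverges, in the
classical and in the general sense, and infinitely many of the Moebius maps `S_n` are
bi-Lipschitz for the chordal distance, with one and the same constant. -/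
theorem result : ∀ x : ℂ, ‖x‖ = 1 →
    (GenConverges x ↔ ∃ n : ℕ, 0 < n ∧ x ^ n = 1) ∧
    ((∀ n : ℕ, 0 < n → x ^ n ≠ 1) →
      ¬ Converges x ∧
      ∃ C : ℝ, 0 < C ∧ ∀ N : ℕ, ∃ n ≥ N, ∀ v w : OnePoint ℂ,
        chord v w ≤ C * chord (modApprox x n v) (modApprox x n w) ∧
        chord (modApprox x n v) (modApprox x n w) ≤ C * chord v w) :=
  fun x hx => main x hx

end Pool.Agent.Results.MP_1cdd17_nt.GeneralConvergence
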